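import Mathlib

/-!
# Two-sided intersecting families on a two-part ground set

Let `X₁`, `X₂` be disjoint finite sets with `n₁` and `n₂` elements. For `k, l ≥ 1` it is determined for which parameters every
two-sided intersecting family of sets `F ⊆ X₁ ∪ X₂` with `|F ∩ X₁| = k`, `|F ∩ X₂| = l` has at most `max {A, B}` members: this
is true if and only if `n₁ ≤ 2 k` or `n₂ ≤ 2 l` or `k = l = 1`. So the answer to Q1 is negative, for ALL parameters with
`n₁ > 2 k`, `n₂ > 2 l` and `(k, l) ≠ (1, 1)`.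

Larger families. Let `x ∈ X₁`, `K ⊆ X₁ \ {x}`, `|K| = k`, `L ⊆ X₂`, `|L| = l`. For `k ≥ 2` all sets `F` with `x ∈ F` which meet
`K ∪ L`, together with `K ∪ L`, are a two-sided intersecting family with more than `B` members; for `k = 1`, `l ≥ 2` the sets `F`
with `x ∈ F` which meet `L`, together with the sets `F` with `F ∩ X₂ = L`. By symmetry there is also a family with more than `A`
members.

The bound for `n₁ = 2 k`. The sets `F` with `F ∩ X₁ = P` and the sets `G` with `G ∩ X₁ = X₁ \ P` give cross-intersecting families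
in `X₂`. For these the inequality of Hilton and Milner is proved in the file (an extremal pair for which one of the families has the
smallest possible size is closed under exchanges of two elements unless this family has only one member).
-/

set_option autoImplicit false

namespace Pool.Agent.Results.MP_4c0b8d_co.WhenTheBoundHolds

open Finset

variable {α : Type*} [DecidableEq α]

/-! ### Definitions -/

/-- The family of all `F ⊆ X₁ ∪ X₂` with `|F ∩ X₁| = k` and `|F ∩ X₂| = l`. -/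
def Members (X₁ X₂ : Finset α) (k l : ℕ) : Finset (Finset α) :=
  (X₁ ∪ X₂).powerset.filter fun F => (F ∩ X₁).card = k ∧ (F ∩ X₂).card = l

/-- `𝓕` is two-sided intersecting: any two members intersect, and there are members `F₁₁, F₁₂, F₂₁, F₂₂` of `𝓕` with
`F₁₁ ∩ F₁₂ ∩ X₁ = ∅` and `F₂₁ ∩ F₂₂ ∩ X₂ = ∅`. -/
def TwoSided (X₁ X₂ : Finset α) (𝓕 : Finset (Finset α)) : Prop :=
  (∀ F ∈ 𝓕, ∀ G ∈ 𝓕, F ∩ G ≠ ∅) ∧
    (∃ F₁₁ ∈ 𝓕, ∃ F₁₂ ∈ 𝓕, F₁₁ ∩ F₁₂ ∩ X₁ = ∅) ∧ ∃ F₂₁ ∈ 𝓕, ∃ F₂₂ ∈ 𝓕, F₂₁ ∩ F₂₂ ∩ X₂ = ∅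

/-- the number `A` of the problem -/
def A (n₁ n₂ k l : ℕ) : ℤ :=
  (((n₂ - 1).choose (l - 1) : ℤ) - (n₂ - l - 1).choose (l - 1)) * n₁.choose k + 1 + n₁.choose k - (n₁ - k).choose k

/-- the number `B` of the problem -/
def B (n₁ n₂ k l : ℕ) : ℤ :=
  (((n₁ - 1).choose (k - 1) : ℤ) - (n₁ - k - 1).choose (k - 1)) * n₂.choose l + 1 + n₂.choose l - (n₂ - l).choose l

/-! ### Non-empty cross-intersecting families (Hilton and Milner) -/

/-- exchange of two elements -/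
def sw (u v : α) (F : Finset α) : Finset α := F.map (Equiv.swap u v).toEmbedding

lemma mem_sw {u v a : α} {F : Finset α} : a ∈ sw u v F ↔ Equiv.swap u v a ∈ F := by
  unfold sw
  rw [Finset.mem_map_equiv, Equiv.symm_swap]

lemma sw_sw (u v : α) (F : Finset α) : sw u v (sw u v F) = F := by
  ext a
  rw [mem_sw, mem_sw, Equiv.swap_apply_self]

lemma sw_comm (u v : α) (F : Finset α) : sw u v F = sw v u F := by
  unfold sw
  rw [Equiv.swap_comm]

lemma sw_inj (u v : α) : Function.Injective (sw u v : Finset α → Finset α) := fun F G h => by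
  rw [← sw_sw u v F, h, sw_sw]

lemma card_sw (u v : α) (F : Finset α) : (sw u v F).card = F.card := card_map _

lemma disjoint_sw {u v : α} {P Q : Finset α} : Disjoint (sw u v P) (sw u v Q) ↔ Disjoint P Q := by
  unfold sw
  exact disjoint_map _

lemma swap_mem {X : Finset α} {u v a : α} (hu : u ∈ X) (hv : v ∈ X) (ha : Equiv.swap u v a ∈ X) : a ∈ X := by
  by_cases h1 : a = u
  · rwa [h1]
  · by_cases h2 : a = v
    · rwa [h2]
    · rwa [Equiv.swap_apply_of_ne_of_ne h1 h2] at ha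

lemma sw_mem {X : Finset α} {l : ℕ} {u v : α} (hu : u ∈ X) (hv : v ∈ X) {F : Finset α} (hF : F ∈ powersetCard l X) :
    sw u v F ∈ powersetCard l X := by
  rw [mem_powersetCard] at hF ⊢
  refine ⟨fun a ha => swap_mem hu hv (hF.1 (mem_sw.1 ha)), by rw [card_sw]; exact hF.2⟩

/-- both elements inside -/
lemma sw_in {u v : α} {F : Finset α} (hu : u ∈ F) (hv : v ∈ F) : sw u v F = F := by
  ext a
  rw [mem_sw]
  by_cases h1 : a = u
  · rw [h1, Equiv.swap_apply_left]; exact iff_of_true hv hu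
  · by_cases h2 : a = v
    · rw [h2, Equiv.swap_apply_right]; exact iff_of_true hu hv
    · rw [Equiv.swap_apply_of_ne_of_ne h1 h2]

/-- both elements outside -/
lemma sw_out {u v : α} {F : Finset α} (hu : u ∉ F) (hv : v ∉ F) : sw u v F = F := by
  ext a
  rw [mem_sw]
  by_cases h1 : a = u
  · rw [h1, Equiv.swap_apply_left]; exact iff_of_false hv hu
  · by_cases h2 : a = v
    · rw [h2, Equiv.swap_apply_right]; exact iff_of_false hu hv
    · rw [Equiv.swap_apply_of_ne_of_ne h1 h2]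

lemma sw_io {u v : α} {F : Finset α} (hu : u ∈ F) (hv : v ∉ F) : sw u v F = insert v (F.erase u) := by
  have huv : u ≠ v := fun h => hv (h ▸ hu)
  ext a
  rw [mem_sw, mem_insert, mem_erase]
  by_cases h1 : a = u
  · rw [h1, Equiv.swap_apply_left]
    exact iff_of_false hv (by simp [huv])
  · by_cases h2 : a = v
    · rw [h2, Equiv.swap_apply_right]; exact iff_of_true hu (Or.inl rfl)
    · rw [Equiv.swap_apply_of_ne_of_ne h1 h2]
      simp [h1, h2]

/-- exchange in a family -/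
def Sw (u v : α) (G : Finset (Finset α)) : Finset (Finset α) := G.image (sw u v)

lemma mem_Sw {u v : α} {G : Finset (Finset α)} {F : Finset α} : F ∈ Sw u v G ↔ sw u v F ∈ G := by
  unfold Sw
  rw [mem_image]
  constructor
  · rintro ⟨E, hE, rfl⟩
    rwa [sw_sw]
  · intro h
    exact ⟨_, h, sw_sw u v F⟩

lemma card_Sw (u v : α) (G : Finset (Finset α)) : (Sw u v G).card = G.card :=
  card_image_of_injective _ (sw_inj u v)

/-- a non-empty cross-intersecting pair -/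
def Pair (X : Finset α) (l : ℕ) (G H : Finset (Finset α)) : Prop :=
  G ⊆ powersetCard l X ∧ H ⊆ powersetCard l X ∧ G.Nonempty ∧ H.Nonempty ∧ ∀ P ∈ G, ∀ Q ∈ H, ¬ Disjoint P Q

omit [DecidableEq α] in
lemma Pair.symm {X : Finset α} {l : ℕ} {G H : Finset (Finset α)} (h : Pair X l G H) : Pair X l H G :=
  ⟨h.2.1, h.1, h.2.2.2.1, h.2.2.1, fun P hP Q hQ hd => h.2.2.2.2 Q hQ P hP hd.symm⟩

lemma Pair.mix {X : Finset α} {l : ℕ} {G H : Finset (Finset α)} (h : Pair X l G H) {u v : α} (hu : u ∈ X) (hv : v ∈ X)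
    (hne : (G ∩ Sw u v G).Nonempty) : Pair X l (G ∩ Sw u v G) (H ∪ Sw u v H) := by
  obtain ⟨h1, h2, h3, h4, h5⟩ := h
  refine ⟨inter_subset_left.trans h1, union_subset h2 fun F hF => ?_, hne, h4.mono subset_union_left, ?_⟩
  · have := sw_mem hu hv (h2 (mem_Sw.1 hF))
    rwa [sw_sw] at this
  · intro P hP Q hQ hd
    rw [mem_inter] at hP
    rcases mem_union.1 hQ with hQ | hQ
    · exact h5 P hP.1 Q hQ hd
    · exact h5 _ (mem_Sw.1 hP.2) _ (mem_Sw.1 hQ) (disjoint_sw.2 hd)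

/-- the closure property of an extremal pair -/
lemma closure {X : Finset α} {l : ℕ} {G H : Finset (Finset α)} (h : Pair X l G H)
    (hmax : ∀ G' H', Pair X l G' H' → G'.card + H'.card ≤ G.card + H.card)
    (hmin : ∀ G' H', Pair X l G' H' → G'.card + H'.card = G.card + H.card → G.card ≤ G'.card)
    {u v : α} (hu : u ∈ X) (hv : v ∈ X) {F : Finset α} (hF : F ∈ G) (hF' : sw u v F ∈ G) :
    ∀ E ∈ G, sw u v E ∈ G := by
  have hle : G.card ≤ H.card := hmin H G h.symm (add_comm _ _)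
  have hne : (G ∩ Sw u v G).Nonempty := ⟨F, mem_inter.2 ⟨hF, mem_Sw.2 hF'⟩⟩
  have m1 := h.mix hu hv hne
  have k1 := hmax _ _ m1
  have c1 : 0 < (G ∩ Sw u v G).card := hne.card_pos
  have e1 := card_union_add_card_inter G (Sw u v G)
  have e2 := card_union_add_card_inter H (Sw u v H)
  rw [card_Sw] at e1 e2
  have hne2 : (H ∩ Sw u v H).Nonempty := by
    rw [nonempty_iff_ne_empty]
    intro h0
    rw [h0, card_empty] at e2
    omega
  have m2 := (h.symm.mix hu hv hne2).symm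
  have k2 := hmax _ _ m2
  have k3 := hmin _ _ m1 (by omega)
  have k4 : G ∩ Sw u v G = G := eq_of_subset_of_card_le inter_subset_left k3
  intro E hE
  rw [← k4] at hE
  exact mem_Sw.1 (mem_inter.1 hE).2

lemma exists_disj {X Q : Finset α} {l : ℕ} (hX : 2 * l ≤ X.card) (hQ : Q ∈ powersetCard l X) :
    ∃ C ∈ powersetCard l X, Disjoint C Q := by
  rw [mem_powersetCard] at hQ
  have h1 : l ≤ (X \ Q).card := by
    rw [card_sdiff_of_subset hQ.1]
    omega
  obtain ⟨C, hC, hC'⟩ := exists_subset_card_eq h1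
  exact ⟨C, mem_powersetCard.2 ⟨hC.trans sdiff_subset, hC'⟩, disjoint_of_subset_left hC sdiff_disjoint⟩

/-- a family closed under all exchanges is everything -/
lemma all_of_closed {X : Finset α} {l : ℕ} {G : Finset (Finset α)} (hG : G ⊆ powersetCard l X)
    (hcl : ∀ u ∈ X, ∀ v ∈ X, ∀ E ∈ G, sw u v E ∈ G) {C : Finset α} (hC : C ∈ powersetCard l X) :
    ∀ m : ℕ, ∀ E ∈ G, (C \ E).card = m → C ∈ G := by
  intro m
  induction m with
  | zero =>
    intro E hE h0
    rw [card_eq_zero, sdiff_eq_empty_iff_subset] at h0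
    have := eq_of_subset_of_card_le h0 (by
      rw [(mem_powersetCard.1 hC).2, (mem_powersetCard.1 (hG hE)).2])
    rwa [this]
  | succ m ih =>
    intro E hE hm
    have hC' := mem_powersetCard.1 hC
    have hE' := mem_powersetCard.1 (hG hE)
    obtain ⟨v, hv⟩ : (C \ E).Nonempty := by
      rw [← card_pos]; omega
    obtain ⟨u, hu⟩ : (E \ C).Nonempty := by
      rw [← card_pos]
      have h1 := card_sdiff_add_card_inter C E
      have h2 := card_sdiff_add_card_inter E C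
      rw [inter_comm E C] at h2
      omega
    rw [mem_sdiff] at hu hv
    have h3 := hcl u (hE'.1 hu.1) v (hC'.1 hv.1) E hE
    refine ih _ h3 ?_
    rw [sw_io hu.1 hv.2]
    have h4 : C \ insert v (E.erase u) = (C \ E).erase v := by
      ext a
      simp only [mem_sdiff, mem_insert, mem_erase, not_or, not_and]
      constructor
      · rintro ⟨a1, a2, a3⟩
        refine ⟨a2, a1, a3 ?_⟩
        rintro rfl
        exact hu.2 a1
      · rintro ⟨a1, a2, a3⟩
        exact ⟨a2, a1, fun _ => a3⟩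
    rw [h4, card_erase_of_mem (mem_sdiff.2 hv), hm]
    rfl

/-- a member of an extremal pair has one element only -/
lemma single {X : Finset α} {l : ℕ} (hl : 1 ≤ l) (hX : 2 * l < X.card) {G H : Finset (Finset α)} (h : Pair X l G H)
    (hmax : ∀ G' H', Pair X l G' H' → G'.card + H'.card ≤ G.card + H.card)
    (hmin : ∀ G' H', Pair X l G' H' → G'.card + H'.card = G.card + H.card → G.card ≤ G'.card) : G.card = 1 := by
  by_contra hcon
  have hG1 : 1 < G.card := by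
    have := h.2.2.1.card_pos
    omega
  obtain ⟨S, hS, T, hT, hST⟩ := one_lt_card.1 hG1
  have cl : ∀ {u v : α}, u ∈ X → v ∈ X → ∀ {F : Finset α}, F ∈ G → sw u v F ∈ G → ∀ E ∈ G, sw u v E ∈ G := by
    intro u v hu hv F hF hF'
    exact closure h hmax hmin hu hv hF hF'
  have hS' := mem_powersetCard.1 (h.1 hS)
  have hT' := mem_powersetCard.1 (h.1 hT)
  -- an exchange inside `G`
  obtain ⟨x, hxT, y, hyX, hyT, hxy⟩ : ∃ x ∈ T, ∃ y ∈ X, y ∉ T ∧ sw x y T ∈ G := by
    by_cases hint : (S ∩ T).Nonempty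
    · obtain ⟨x, hx⟩ := hint
      rw [mem_inter] at hx
      obtain ⟨y, hy⟩ : (S \ T).Nonempty := by
        rw [nonempty_iff_ne_empty]
        intro h0
        rw [sdiff_eq_empty_iff_subset] at h0
        exact hST (eq_of_subset_of_card_le h0 (by rw [hS'.2, hT'.2]))
      rw [mem_sdiff] at hy
      exact ⟨x, hx.2, y, hS'.1 hy.1, hy.2, cl (hS'.1 hx.1) (hS'.1 hy.1) hS (by rw [sw_in hx.1 hy.1]; exact hS) T hT⟩
    · rw [not_nonempty_iff_eq_empty] at hint
      obtain ⟨x, hx⟩ : T.Nonempty := by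
        rw [← card_pos]; omega
      have hxS : x ∉ S := fun hxS => by
        have : x ∈ S ∩ T := mem_inter.2 ⟨hxS, hx⟩
        rw [hint] at this
        exact notMem_empty _ this
      obtain ⟨y, hy⟩ : (X \ (S ∪ T)).Nonempty := by
        rw [← card_pos, card_sdiff_of_subset (union_subset hS'.1 hT'.1)]
        have := card_union_le S T
        omega
      rw [mem_sdiff, mem_union, not_or] at hy
      exact ⟨x, hx, y, hy.1, hy.2.2, cl (hT'.1 hx) hy.1 hS (by rw [sw_out hxS hy.2.1]; exact hS) T hT⟩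
  -- all exchanges of `T` are in `G`
  have step : ∀ u ∈ T, ∀ v ∈ X, v ∉ T → sw u v T ∈ G := by
    intro u hu v hvX hvT
    have h1 := cl (hT'.1 hxT) (hT'.1 hu) hT (by rw [sw_in hxT hu]; exact hT) _ hxy
    have h2 := cl hyX hvX hT (by rw [sw_out hyT hvT]; exact hT) _ h1
    convert h2 using 1
    ext a
    simp only [mem_sw]
    by_cases a1 : a = u
    · subst a1
      rw [Equiv.swap_apply_left]
      have n1 : a ≠ y := fun h => hyT (h ▸ hu)
      have n2 : a ≠ v := fun h => hvT (h ▸ hu)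
      rw [Equiv.swap_apply_of_ne_of_ne n1 n2, Equiv.swap_apply_right, Equiv.swap_apply_left]
      exact iff_of_false hvT hyT
    · by_cases a2 : a = v
      · subst a2
        rw [Equiv.swap_apply_right, Equiv.swap_apply_right]
        have n1 : y ≠ x := fun h => hyT (h ▸ hxT)
        have n2 : y ≠ u := fun h => hyT (h ▸ hu)
        rw [Equiv.swap_apply_of_ne_of_ne n1 n2, Equiv.swap_apply_right]
        exact iff_of_true hu hxT
      · rw [Equiv.swap_apply_of_ne_of_ne a1 a2]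
        by_cases a3 : a = y
        · subst a3
          rw [Equiv.swap_apply_left]
          have n1 : v ≠ x := fun h => hvT (h ▸ hxT)
          have n2 : v ≠ u := fun h => hvT (h ▸ hu)
          rw [Equiv.swap_apply_of_ne_of_ne n1 n2]
          have n3 : v ≠ a := fun h => a2 h.symm
          rw [Equiv.swap_apply_of_ne_of_ne n1 n3]
          exact iff_of_false hyT hvT
        · rw [Equiv.swap_apply_of_ne_of_ne a3 a2]
          by_cases a4 : a = x
          · subst a4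
            rw [Equiv.swap_apply_left]
            have n1 : u ≠ a := fun h => a1 h.symm
            have n2 : u ≠ y := fun h => hyT (h ▸ hu)
            rw [Equiv.swap_apply_of_ne_of_ne n1 n2]
            exact iff_of_true hxT hu
          · rw [Equiv.swap_apply_of_ne_of_ne a4 a1, Equiv.swap_apply_of_ne_of_ne a4 a3]
  -- all exchanges preserve `G`
  have hall : ∀ u ∈ X, ∀ v ∈ X, ∀ E ∈ G, sw u v E ∈ G := by
    intro u hu v hv
    by_cases hu' : u ∈ T <;> by_cases hv' : v ∈ T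
    · exact cl hu hv hT (by rw [sw_in hu' hv']; exact hT)
    · exact cl hu hv hT (step u hu' v hv hv')
    · have h1 := cl hv hu hT (step v hv' u hu hu')
      intro E hE
      rw [sw_comm]
      exact h1 E hE
    · exact cl hu hv hT (by rw [sw_out hu' hv']; exact hT)
  obtain ⟨Q, hQ⟩ := h.2.2.2.1
  obtain ⟨C, hC, hCQ⟩ := exists_disj hX.le (h.2.1 hQ)
  exact h.2.2.2.2 C (all_of_closed h.1 hall hC _ T hT rfl) Q hQ hCQ

lemma card_disj {X L : Finset α} {l : ℕ} (hL : L ⊆ X) (j : ℕ) (hj : L.card = j) :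
    ((powersetCard l X).filter fun Q => Disjoint Q L).card = (X.card - j).choose l := by
  have h1 : ((powersetCard l X).filter fun Q => Disjoint Q L) = powersetCard l (X \ L) := by
    ext Q
    rw [mem_filter, mem_powersetCard, mem_powersetCard, subset_sdiff]
    tauto
  rw [h1, card_powersetCard, card_sdiff_of_subset hL, hj]

/-- **Hilton and Milner**: non-empty cross-intersecting families -/
theorem hilton_milner {X : Finset α} {l : ℕ} (hl : 1 ≤ l) (hX : 2 * l ≤ X.card) {G H : Finset (Finset α)}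
    (h : Pair X l G H) : G.card + H.card + (X.card - l).choose l ≤ X.card.choose l + 1 := by
  classical
  rcases hX.eq_or_lt with hX | hX
  · -- complements
    have h1 : (X.card - l).choose l = 1 := by
      rw [← hX, show 2 * l - l = l by omega, Nat.choose_self]
    rw [h1]
    have h2 : Disjoint G (H.image fun Q => X \ Q) := by
      rw [disjoint_left]
      intro P hP hP'
      rw [mem_image] at hP'
      obtain ⟨Q, hQ, rfl⟩ := hP'
      exact h.2.2.2.2 _ hP Q hQ sdiff_disjoint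
    have h3 : (H.image fun Q => X \ Q).card = H.card := by
      apply card_image_of_injOn
      intro P hP Q hQ hPQ
      have hP' := (mem_powersetCard.1 (h.2.1 hP)).1
      have hQ' := (mem_powersetCard.1 (h.2.1 hQ)).1
      have : X \ (X \ P) = X \ (X \ Q) := by
        simp only at hPQ
        rw [hPQ]
      rwa [Finset.sdiff_sdiff_eq_self hP', Finset.sdiff_sdiff_eq_self hQ'] at this
    have h4 : G ∪ (H.image fun Q => X \ Q) ⊆ powersetCard l X := by
      refine union_subset h.1 fun F hF => ?_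
      rw [mem_image] at hF
      obtain ⟨Q, hQ, rfl⟩ := hF
      have hQ' := mem_powersetCard.1 (h.2.1 hQ)
      rw [mem_powersetCard, card_sdiff_of_subset hQ'.1, hQ'.2]
      exact ⟨sdiff_subset, by omega⟩
    have h5 := card_le_card h4
    rw [card_union_of_disjoint h2, h3, card_powersetCard] at h5
    omega
  · -- an extremal pair
    let 𝒮 : Finset (Finset (Finset α) × Finset (Finset α)) :=
      ((powersetCard l X).powerset ×ˢ (powersetCard l X).powerset).filter fun p => Pair X l p.1 p.2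
    have mem𝒮 : ∀ G' H', Pair X l G' H' → (G', H') ∈ 𝒮 := fun G' H' h' =>
      mem_filter.2 ⟨mem_product.2 ⟨mem_powerset.2 h'.1, mem_powerset.2 h'.2.1⟩, h'⟩
    obtain ⟨p, hp, hpmax⟩ := exists_max_image 𝒮 (fun p => p.1.card + p.2.card) ⟨_, mem𝒮 G H h⟩
    obtain ⟨q, hq, hqmin⟩ := exists_min_image (𝒮.filter fun q => q.1.card + q.2.card = p.1.card + p.2.card)
      (fun q => q.1.card) ⟨p, mem_filter.2 ⟨hp, rfl⟩⟩
    rw [mem_filter] at hq
    have hq2 : Pair X l q.1 q.2 := (mem_filter.1 hq.1).2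
    have hq1 := single hl hX hq2
      (fun G' H' h' => by rw [hq.2]; exact hpmax _ (mem𝒮 _ _ h'))
      (fun G' H' h' he => hqmin (G', H') (mem_filter.2 ⟨mem𝒮 _ _ h', by rw [he, hq.2]⟩))
    have hG := hpmax _ (mem𝒮 G H h)
    simp only at hG
    obtain ⟨P, hP⟩ := card_eq_one.1 hq1
    have hPX := mem_powersetCard.1 (hq2.1 (show P ∈ q.1 by rw [hP]; exact mem_singleton_self _))
    have h1 : q.2 ⊆ (powersetCard l X).filter fun Q => ¬ Disjoint Q P := by
      intro Q hQ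
      refine mem_filter.2 ⟨hq2.2.1 hQ, fun hd => ?_⟩
      exact hq2.2.2.2.2 P (by rw [hP]; exact mem_singleton_self _) Q hQ hd.symm
    have h2 := card_le_card h1
    have h3 := card_filter_add_card_filter_not (s := powersetCard l X) (fun Q => Disjoint Q P)
    rw [card_disj hPX.1 l hPX.2, card_powersetCard] at h3
    omega

/-! ### The cases in which the bound holds -/

lemma mem_Members {X₁ X₂ F : Finset α} {k l : ℕ} :
    F ∈ Members X₁ X₂ k l ↔ F ⊆ X₁ ∪ X₂ ∧ (F ∩ X₁).card = k ∧ (F ∩ X₂).card = l := by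
  unfold Members
  rw [mem_filter, mem_powerset]

lemma Members_comm (X₁ X₂ : Finset α) (k l : ℕ) : Members X₁ X₂ k l = Members X₂ X₁ l k := by
  ext F
  rw [mem_Members, mem_Members, union_comm]
  tauto

lemma TwoSided.comm {X₁ X₂ : Finset α} {𝓕 : Finset (Finset α)} (h : TwoSided X₁ X₂ 𝓕) : TwoSided X₂ X₁ 𝓕 :=
  ⟨h.1, h.2.2, h.2.1⟩

lemma A_eq_B (n₁ n₂ k l : ℕ) : A n₁ n₂ k l = B n₂ n₁ l k := rfl

lemma split {X₁ X₂ F : Finset α} (hF : F ⊆ X₁ ∪ X₂) : F = (F ∩ X₁) ∪ (F ∩ X₂) := by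
  rw [← inter_union_distrib_left]
  exact (inter_eq_left.2 hF).symm

/-- two members with disjoint parts -/
lemma two_le {X₁ X₂ : Finset α} {k l : ℕ} {F G : Finset α} (hF : F ∈ Members X₁ X₂ k l) (hG : G ∈ Members X₁ X₂ k l)
    (h : F ∩ G ∩ X₁ = ∅) : 2 * k ≤ X₁.card ∧ Disjoint (F ∩ X₁) (G ∩ X₁) := by
  have hd : Disjoint (F ∩ X₁) (G ∩ X₁) := by
    rw [disjoint_iff_inter_eq_empty, ← h]
    ext a
    simp only [mem_inter]
    tauto
  have h1 := card_union_of_disjoint hd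
  rw [(mem_Members.1 hF).2.1, (mem_Members.1 hG).2.1] at h1
  have h2 := card_le_card (union_subset (inter_subset_right (s₁ := F) (s₂ := X₁)) (inter_subset_right (s₁ := G)))
  exact ⟨by omega, hd⟩

/-- the fibre over `P` -/
def fib (X₁ X₂ : Finset α) (𝓕 : Finset (Finset α)) (P : Finset α) : Finset (Finset α) :=
  (𝓕.filter fun F => F ∩ X₁ = P).image fun F => F ∩ X₂

lemma card_fib {X₁ X₂ : Finset α} {k l : ℕ} {𝓕 : Finset (Finset α)} (h𝓕 : 𝓕 ⊆ Members X₁ X₂ k l) (P : Finset α) :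
    (fib X₁ X₂ 𝓕 P).card = (𝓕.filter fun F => F ∩ X₁ = P).card := by
  unfold fib
  apply card_image_of_injOn
  intro F hF G hG hFG
  rw [mem_coe, mem_filter] at hF hG
  simp only at hFG
  rw [split (mem_Members.1 (h𝓕 hF.1)).1, split (mem_Members.1 (h𝓕 hG.1)).1, hF.2, hG.2, hFG]

lemma fib_sub {X₁ X₂ : Finset α} {k l : ℕ} {𝓕 : Finset (Finset α)} (h𝓕 : 𝓕 ⊆ Members X₁ X₂ k l) (P : Finset α) :
    fib X₁ X₂ 𝓕 P ⊆ powersetCard l X₂ := by
  intro Q hQ
  unfold fib at hQ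
  rw [mem_image] at hQ
  obtain ⟨F, hF, rfl⟩ := hQ
  rw [mem_powersetCard]
  exact ⟨inter_subset_right, (mem_Members.1 (h𝓕 (mem_filter.1 hF).1)).2.2⟩

lemma fib_cross {X₁ X₂ : Finset α} {k l : ℕ} {𝓕 : Finset (Finset α)} (h𝓕 : 𝓕 ⊆ Members X₁ X₂ k l)
    (hint : ∀ F ∈ 𝓕, ∀ G ∈ 𝓕, F ∩ G ≠ ∅) (P : Finset α) :
    ∀ Q ∈ fib X₁ X₂ 𝓕 P, ∀ R ∈ fib X₁ X₂ 𝓕 (X₁ \ P), ¬ Disjoint Q R := by
  intro Q hQ R hR hd
  unfold fib at hQ hR
  rw [mem_image] at hQ hR
  obtain ⟨F, hF, rfl⟩ := hQ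
  obtain ⟨G, hG, rfl⟩ := hR
  rw [mem_filter] at hF hG
  apply hint F hF.1 G hG.1
  rw [eq_empty_iff_forall_notMem]
  intro a ha
  rw [mem_inter] at ha
  rcases mem_union.1 ((mem_Members.1 (h𝓕 hF.1)).1 ha.1) with h1 | h1
  · have a1 : a ∈ P := by rw [← hF.2]; exact mem_inter.2 ⟨ha.1, h1⟩
    have a2 : a ∈ X₁ \ P := by rw [← hG.2]; exact mem_inter.2 ⟨ha.2, h1⟩
    exact (mem_sdiff.1 a2).2 a1
  · exact disjoint_left.1 hd (mem_inter.2 ⟨ha.1, h1⟩) (mem_inter.2 ⟨ha.2, h1⟩)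

lemma bound_B {X₁ X₂ : Finset α} {k l : ℕ} (hk : 1 ≤ k) (hl : 1 ≤ l)
    (h1 : X₁.card ≤ 2 * k) {𝓕 : Finset (Finset α)} (h𝓕 : 𝓕 ⊆ Members X₁ X₂ k l) (hT : TwoSided X₁ X₂ 𝓕) :
    (𝓕.card : ℤ) ≤ B X₁.card X₂.card k l := by
  classical
  obtain ⟨hint, ⟨F, hF, G, hG, hFG⟩, ⟨F', hF', G', hG', hFG'⟩⟩ := hT
  obtain ⟨e1, e2⟩ := two_le (h𝓕 hF) (h𝓕 hG) hFG
  obtain ⟨e3, -⟩ := two_le (X₁ := X₂) (X₂ := X₁) (k := l) (l := k) (by rw [Members_comm]; exact h𝓕 hF')
    (by rw [Members_comm]; exact h𝓕 hG') hFG'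
  have hn1 : X₁.card = 2 * k := by omega
  set P₀ := F ∩ X₁ with hP₀
  have cP₀ : P₀.card = k := (mem_Members.1 (h𝓕 hF)).2.1
  have sP₀ : P₀ ⊆ X₁ := inter_subset_right
  have hGP : G ∩ X₁ = X₁ \ P₀ := by
    apply eq_of_subset_of_card_le
    · exact subset_sdiff.2 ⟨inter_subset_right, e2.symm⟩
    · rw [card_sdiff_of_subset sP₀, cP₀, (mem_Members.1 (h𝓕 hG)).2.1]
      omega
  set f : Finset α → ℕ := fun P => (𝓕.filter fun F => F ∩ X₁ = P).card with hf
  have hsum : 𝓕.card = ∑ P ∈ powersetCard k X₁, f P := by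
    apply card_eq_sum_card_fiberwise
    intro E hE
    rw [mem_coe] at hE
    rw [mem_coe, mem_powersetCard]
    exact ⟨inter_subset_right, (mem_Members.1 (h𝓕 hE)).2.1⟩
  have hcomp : ∀ P ∈ powersetCard k X₁, X₁ \ P ∈ powersetCard k X₁ := by
    intro P hP
    rw [mem_powersetCard] at hP ⊢
    rw [card_sdiff_of_subset hP.1]
    exact ⟨sdiff_subset, by omega⟩
  have hsum' : ∑ P ∈ powersetCard k X₁, f P = ∑ P ∈ powersetCard k X₁, f (X₁ \ P) := by
    refine sum_nbij' (fun P => X₁ \ P) (fun P => X₁ \ P) hcomp hcomp ?_ ?_ ?_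
    · intro P hP
      exact Finset.sdiff_sdiff_eq_self (mem_powersetCard.1 hP).1
    · intro P hP
      exact Finset.sdiff_sdiff_eq_self (mem_powersetCard.1 hP).1
    · intro P hP
      rw [Finset.sdiff_sdiff_eq_self (mem_powersetCard.1 hP).1]
  have hpair : ∀ P, 0 < f P → 0 < f (X₁ \ P) →
      f P + f (X₁ \ P) + (X₂.card - l).choose l ≤ X₂.card.choose l + 1 := by
    intro P hp hp'
    have := hilton_milner hl e3 (G := fib X₁ X₂ 𝓕 P) (H := fib X₁ X₂ 𝓕 (X₁ \ P))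
      ⟨fib_sub h𝓕 P, fib_sub h𝓕 _, card_pos.1 (by rw [card_fib h𝓕]; exact hp),
        card_pos.1 (by rw [card_fib h𝓕]; exact hp'), fib_cross h𝓕 hint P⟩
    rwa [card_fib h𝓕, card_fib h𝓕] at this
  have hD : 0 < (X₂.card - l).choose l := Nat.choose_pos (by omega)
  have hle : ∀ P, f P ≤ X₂.card.choose l := by
    intro P
    have := card_le_card (fib_sub h𝓕 P)
    rwa [card_fib h𝓕, card_powersetCard] at this
  have hall : ∀ P, f P + f (X₁ \ P) ≤ X₂.card.choose l := by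
    intro P
    rcases Nat.eq_zero_or_pos (f P) with h0 | h0
    · rw [h0, zero_add]; exact hle _
    · rcases Nat.eq_zero_or_pos (f (X₁ \ P)) with h0' | h0'
      · rw [h0', add_zero]; exact hle _
      · have := hpair P h0 h0'
        omega
  have hfP : 0 < f P₀ := card_pos.2 ⟨F, mem_filter.2 ⟨hF, rfl⟩⟩
  have hfP' : 0 < f (X₁ \ P₀) := card_pos.2 ⟨G, mem_filter.2 ⟨hG, hGP⟩⟩
  have hmem : P₀ ∈ powersetCard k X₁ := mem_powersetCard.2 ⟨sP₀, cP₀⟩
  have hne : X₁ \ P₀ ≠ P₀ := by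
    intro h0
    have : Disjoint P₀ P₀ := by
      nth_rewrite 1 [← h0]
      exact sdiff_disjoint
    rw [disjoint_self_iff_empty] at this
    rw [this, card_empty] at cP₀
    omega
  have hmem' : X₁ \ P₀ ∈ (powersetCard k X₁).erase P₀ := mem_erase.2 ⟨hne, hcomp _ hmem⟩
  have s0 : 2 * 𝓕.card = ∑ P ∈ powersetCard k X₁, (f P + f (X₁ \ P)) := by
    rw [sum_add_distrib, ← hsum', ← hsum]
    ring
  have s1 := add_sum_erase (powersetCard k X₁) (fun P => f P + f (X₁ \ P)) hmem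
  have s2 := add_sum_erase ((powersetCard k X₁).erase P₀) (fun P => f P + f (X₁ \ P)) hmem'
  have s3 : ∑ P ∈ ((powersetCard k X₁).erase P₀).erase (X₁ \ P₀), (f P + f (X₁ \ P)) ≤
      ((X₁.card.choose k) - 2) * X₂.card.choose l := by
    have := sum_le_card_nsmul (((powersetCard k X₁).erase P₀).erase (X₁ \ P₀)) (fun P => f P + f (X₁ \ P))
      (X₂.card.choose l) (fun P _ => hall P)
    rw [card_erase_of_mem hmem', card_erase_of_mem hmem, card_powersetCard, smul_eq_mul] at this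
    exact this
  have hp1 := hpair P₀ hfP hfP'
  have hself : X₁ \ (X₁ \ P₀) = P₀ := Finset.sdiff_sdiff_eq_self sP₀
  simp only [hself] at s2
  have hC : 2 ≤ X₁.card.choose k := by
    have h2 : 2 ≤ (powersetCard k X₁).card := by
      have := card_pos.2 ⟨_, hmem'⟩
      rw [card_erase_of_mem hmem] at this
      omega
    rwa [card_powersetCard] at h2
  obtain ⟨j, rfl⟩ : ∃ j, k = j + 1 := ⟨k - 1, by omega⟩
  have c1 : X₁.card.choose (j + 1) = 2 * (2 * j + 1).choose j := by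
    rw [hn1, show 2 * (j + 1) = (2 * j + 1) + 1 by ring, Nat.choose_succ_succ, Nat.choose_symm_half]
    ring
  unfold B
  rw [hn1, show 2 * (j + 1) - 1 = 2 * j + 1 by omega, show j + 1 - 1 = j by omega,
    show 2 * (j + 1) - (j + 1) - 1 = j by omega, Nat.choose_self]
  have key : 2 * 𝓕.card + 2 * (X₂.card - l).choose l ≤ X₁.card.choose (j + 1) * X₂.card.choose l + 2 := by
    obtain ⟨c, hc⟩ : ∃ c, X₁.card.choose (j + 1) = c + 2 := ⟨_, (Nat.sub_add_cancel hC).symm⟩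
    rw [hc] at s3 ⊢
    rw [show c + 2 - 2 = c by omega] at s3
    have : (c + 2) * X₂.card.choose l = c * X₂.card.choose l + 2 * X₂.card.choose l := by ring
    rw [this]
    omega
  rw [c1] at key
  have key' : (2 * (𝓕.card : ℤ) + 2 * ((X₂.card - l).choose l : ℕ)) ≤
      2 * ((2 * j + 1).choose j : ℕ) * (X₂.card.choose l : ℕ) + 2 := by exact_mod_cast key
  push_cast at key' ⊢
  linarith

/-- for `k = l = 1` there is no two-sided intersecting family -/
lemma one_one {X₁ X₂ : Finset α} (hd : Disjoint X₁ X₂) {𝓕 : Finset (Finset α)}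
    (h𝓕 : 𝓕 ⊆ Members X₁ X₂ 1 1) (hT : TwoSided X₁ X₂ 𝓕) : False := by
  obtain ⟨hint, ⟨F, hF, G, hG, hFG⟩, ⟨F', hF', G', hG', hFG'⟩⟩ := hT
  -- the parts are single points
  have part : ∀ E ∈ 𝓕, ∃ x y, E ∩ X₁ = {x} ∧ E ∩ X₂ = {y} ∧ E = {x, y} ∧ x ≠ y := by
    intro E hE
    obtain ⟨g1, g2, g3⟩ := mem_Members.1 (h𝓕 hE)
    obtain ⟨x, hx⟩ := card_eq_one.1 g2
    obtain ⟨y, hy⟩ := card_eq_one.1 g3
    refine ⟨x, y, hx, hy, ?_, ?_⟩
    · rw [split g1, hx, hy]; rfl
    · rintro rfl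
      have a1 : x ∈ E ∩ X₁ := by rw [hx]; exact mem_singleton_self _
      have a2 : x ∈ E ∩ X₂ := by rw [hy]; exact mem_singleton_self _
      exact disjoint_left.1 hd (mem_inter.1 a1).2 (mem_inter.1 a2).2
  have key : ∀ E ∈ 𝓕, ∀ E' ∈ 𝓕, ∀ x y x' y', E ∩ X₁ = {x} → E ∩ X₂ = {y} → E' ∩ X₁ = {x'} → E' ∩ X₂ = {y'} →
      x = x' ∨ y = y' := by
    intro E hE E' hE' x y x' y' h1 h2 h3 h4
    obtain ⟨a, ha⟩ := nonempty_iff_ne_empty.2 (hint E hE E' hE')
    rw [mem_inter] at ha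
    rcases mem_union.1 ((mem_Members.1 (h𝓕 hE)).1 ha.1) with h5 | h5
    · left
      have a1 : a ∈ E ∩ X₁ := mem_inter.2 ⟨ha.1, h5⟩
      have a2 : a ∈ E' ∩ X₁ := mem_inter.2 ⟨ha.2, h5⟩
      rw [h1, mem_singleton] at a1
      rw [h3, mem_singleton] at a2
      rw [← a1, ← a2]
    · right
      have a1 : a ∈ E ∩ X₂ := mem_inter.2 ⟨ha.1, h5⟩
      have a2 : a ∈ E' ∩ X₂ := mem_inter.2 ⟨ha.2, h5⟩
      rw [h2, mem_singleton] at a1
      rw [h4, mem_singleton] at a2
      rw [← a1, ← a2]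
  obtain ⟨x₁, y₁, a1, b1, -, -⟩ := part F hF
  obtain ⟨x₂, y₂, a2, b2, -, -⟩ := part G hG
  obtain ⟨x₃, y₃, a3, b3, -, -⟩ := part F' hF'
  obtain ⟨x₄, y₄, a4, b4, -, -⟩ := part G' hG'
  have n1 : x₁ ≠ x₂ := by
    rintro rfl
    have c1 : x₁ ∈ F ∩ X₁ := by rw [a1]; exact mem_singleton_self _
    have c2 : x₁ ∈ G ∩ X₁ := by rw [a2]; exact mem_singleton_self _
    have : x₁ ∈ F ∩ G ∩ X₁ := mem_inter.2 ⟨mem_inter.2 ⟨(mem_inter.1 c1).1, (mem_inter.1 c2).1⟩, (mem_inter.1 c1).2⟩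
    rw [hFG] at this
    exact notMem_empty _ this
  have n2 : y₃ ≠ y₄ := by
    rintro rfl
    have c1 : y₃ ∈ F' ∩ X₂ := by rw [b3]; exact mem_singleton_self _
    have c2 : y₃ ∈ G' ∩ X₂ := by rw [b4]; exact mem_singleton_self _
    have : y₃ ∈ F' ∩ G' ∩ X₂ :=
      mem_inter.2 ⟨mem_inter.2 ⟨(mem_inter.1 c1).1, (mem_inter.1 c2).1⟩, (mem_inter.1 c1).2⟩
    rw [hFG'] at this
    exact notMem_empty _ this
  have k12 := key F hF G hG _ _ _ _ a1 b1 a2 b2
  have k13 := key F hF F' hF' _ _ _ _ a1 b1 a3 b3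
  have k14 := key F hF G' hG' _ _ _ _ a1 b1 a4 b4
  have k23 := key G hG F' hF' _ _ _ _ a2 b2 a3 b3
  have k24 := key G hG G' hG' _ _ _ _ a2 b2 a4 b4
  have k34 := key F' hF' G' hG' _ _ _ _ a3 b3 a4 b4
  rcases k12 with h | h12
  · exact n1 h
  rcases k34 with h34 | h
  · rcases k13 with h13 | h13
    · rcases k23 with h23 | h23
      · exact n1 (h13.trans h23.symm)
      · rcases k24 with h24 | h24
        · exact n1 (h13.trans (h34.trans h24.symm))
        · exact n2 (h23.symm.trans h24)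
    · rcases k14 with h14 | h14
      · rcases k24 with h24 | h24
        · exact n1 (h14.trans h24.symm)
        · exact n2 (h13.symm.trans (h12.trans h24))
      · exact n2 (h13.symm.trans h14)
  · exact n2 h

/-! ### Large two-sided intersecting families -/

/-- the family of the `P ∪ Q` with `R P Q` -/
def fam (X₁ X₂ : Finset α) (k l : ℕ) (S : Finset (Finset α × Finset α)) : Finset (Finset α) :=
  ((powersetCard k X₁ ×ˢ powersetCard l X₂) ∩ S).image fun p => p.1 ∪ p.2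

lemma part₁ {X₁ X₂ P Q : Finset α} (hd : Disjoint X₁ X₂) (hP : P ⊆ X₁) (hQ : Q ⊆ X₂) : (P ∪ Q) ∩ X₁ = P := by
  rw [union_inter_distrib_right, inter_eq_left.2 hP, disjoint_iff_inter_eq_empty.1
    (disjoint_of_subset_left hQ hd.symm), union_empty]

lemma part₂ {X₁ X₂ P Q : Finset α} (hd : Disjoint X₁ X₂) (hP : P ⊆ X₁) (hQ : Q ⊆ X₂) : (P ∪ Q) ∩ X₂ = Q := by
  rw [union_comm]
  exact part₁ hd.symm hQ hP

lemma fam_sub {X₁ X₂ : Finset α} (hd : Disjoint X₁ X₂) (k l : ℕ) (S : Finset (Finset α × Finset α)) :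
    fam X₁ X₂ k l S ⊆ Members X₁ X₂ k l := by
  intro F hF
  unfold fam at hF
  rw [mem_image] at hF
  obtain ⟨p, hp, rfl⟩ := hF
  have hp' := mem_product.1 (mem_inter.1 hp).1
  rw [mem_powersetCard, mem_powersetCard] at hp'
  rw [mem_Members, part₁ hd hp'.1.1 hp'.2.1, part₂ hd hp'.1.1 hp'.2.1]
  exact ⟨union_subset_union hp'.1.1 hp'.2.1, hp'.1.2, hp'.2.2⟩

lemma card_fam {X₁ X₂ : Finset α} (hd : Disjoint X₁ X₂) {k l : ℕ} {S : Finset (Finset α × Finset α)}
    (hS : S ⊆ powersetCard k X₁ ×ˢ powersetCard l X₂) : (fam X₁ X₂ k l S).card = S.card := by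
  unfold fam
  rw [inter_eq_right.2 hS]
  apply card_image_of_injOn
  intro p hp q hq hpq
  have hp' := mem_product.1 (hS hp)
  have hq' := mem_product.1 (hS hq)
  rw [mem_powersetCard, mem_powersetCard] at hp' hq'
  simp only at hpq
  have e1 := part₁ hd hp'.1.1 hp'.2.1
  have e2 := part₂ hd hp'.1.1 hp'.2.1
  rw [hpq, part₁ hd hq'.1.1 hq'.2.1] at e1
  rw [hpq, part₂ hd hq'.1.1 hq'.2.1] at e2
  exact Prod.ext e1.symm e2.symm

lemma fam_two {X₁ X₂ : Finset α} (hd : Disjoint X₁ X₂) {k l : ℕ} {S : Finset (Finset α × Finset α)}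
    (hS : S ⊆ powersetCard k X₁ ×ˢ powersetCard l X₂)
    (h1 : ∀ p ∈ S, ∀ q ∈ S, ¬ Disjoint p.1 q.1 ∨ ¬ Disjoint p.2 q.2)
    (h2 : ∃ p ∈ S, ∃ q ∈ S, Disjoint p.1 q.1) (h3 : ∃ p ∈ S, ∃ q ∈ S, Disjoint p.2 q.2) :
    TwoSided X₁ X₂ (fam X₁ X₂ k l S) := by
  have mem : ∀ p ∈ S, p.1 ∪ p.2 ∈ fam X₁ X₂ k l S := fun p hp =>
    mem_image.2 ⟨p, mem_inter.2 ⟨hS hp, hp⟩, rfl⟩
  have sub : ∀ p ∈ S, p.1 ⊆ X₁ ∧ p.2 ⊆ X₂ := fun p hp => by
    have hp' := mem_product.1 (hS hp)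
    rw [mem_powersetCard, mem_powersetCard] at hp'
    exact ⟨hp'.1.1, hp'.2.1⟩
  refine ⟨?_, ?_, ?_⟩
  · intro F hF G hG h0
    unfold fam at hF hG
    rw [mem_image] at hF hG
    obtain ⟨p, hp, rfl⟩ := hF
    obtain ⟨q, hq, rfl⟩ := hG
    have h5 : Disjoint (p.1 ∪ p.2) (q.1 ∪ q.2) := disjoint_iff_inter_eq_empty.2 h0
    rcases h1 p (mem_inter.1 hp).2 q (mem_inter.1 hq).2 with h | h
    · exact h (disjoint_of_subset_left subset_union_left (disjoint_of_subset_right subset_union_left h5))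
    · exact h (disjoint_of_subset_left subset_union_right (disjoint_of_subset_right subset_union_right h5))
  · obtain ⟨p, hp, q, hq, h⟩ := h2
    refine ⟨_, mem p hp, _, mem q hq, ?_⟩
    rw [inter_inter_distrib_right, part₁ hd (sub p hp).1 (sub p hp).2, part₁ hd (sub q hq).1 (sub q hq).2]
    exact disjoint_iff_inter_eq_empty.1 h
  · obtain ⟨p, hp, q, hq, h⟩ := h3
    refine ⟨_, mem p hp, _, mem q hq, ?_⟩
    rw [inter_inter_distrib_right, part₂ hd (sub p hp).1 (sub p hp).2, part₂ hd (sub q hq).1 (sub q hq).2]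
    exact disjoint_iff_inter_eq_empty.1 h

lemma card_notMem {X : Finset α} {x : α} (hx : x ∈ X) (k : ℕ) :
    ((powersetCard k X).filter fun P => x ∉ P).card = (X.card - 1).choose k := by
  have h1 : ((powersetCard k X).filter fun P => x ∉ P) = powersetCard k (X.erase x) := by
    ext P
    rw [mem_filter, mem_powersetCard, mem_powersetCard, subset_erase]
    tauto
  rw [h1, card_powersetCard, card_erase_of_mem hx]

lemma card_mem {X : Finset α} {x : α} (hx : x ∈ X) {k : ℕ} (hk : 1 ≤ k) :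
    ((powersetCard k X).filter fun P => x ∈ P).card = (X.card - 1).choose (k - 1) := by
  have h1 := card_filter_add_card_filter_not (s := powersetCard k X) (fun P => x ∈ P)
  rw [card_notMem hx, card_powersetCard] at h1
  obtain ⟨j, rfl⟩ : ∃ j, k = j + 1 := ⟨k - 1, by omega⟩
  obtain ⟨m, hm⟩ : ∃ m, X.card = m + 1 := ⟨X.card - 1, by have := card_pos.2 ⟨x, hx⟩; omega⟩
  rw [hm, Nat.choose_succ_succ'] at h1
  rw [hm]
  simp only [Nat.add_sub_cancel] at h1 ⊢
  omega

lemma card_mem_disj {X K : Finset α} {x : α} (hK : K ⊆ X) (hx : x ∈ X) (hxK : x ∉ K) {k : ℕ} (hk : 1 ≤ k) :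
    ((powersetCard k X).filter fun P => x ∈ P ∧ Disjoint P K).card = (X.card - K.card - 1).choose (k - 1) := by
  have h1 : ((powersetCard k X).filter fun P => x ∈ P ∧ Disjoint P K) =
      (powersetCard k (X \ K)).filter fun P => x ∈ P := by
    ext P
    rw [mem_filter, mem_filter, mem_powersetCard, mem_powersetCard, subset_sdiff]
    tauto
  rw [h1, card_mem (mem_sdiff.2 ⟨hx, hxK⟩) hk, card_sdiff_of_subset hK]

lemma D_lt_N {n l : ℕ} (hl : 1 ≤ l) (hn : l ≤ n) : (n - l).choose l < n.choose l := by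
  obtain ⟨j, rfl⟩ : ∃ j, l = j + 1 := ⟨l - 1, by omega⟩
  obtain ⟨m, rfl⟩ : ∃ m, n = m + 1 := ⟨n - 1, by omega⟩
  have h1 : (m + 1 - (j + 1)).choose (j + 1) ≤ m.choose (j + 1) := Nat.choose_le_choose _ (by omega)
  have h2 : 0 < m.choose j := Nat.choose_pos (by omega)
  rw [Nat.choose_succ_succ']
  omega

/-- the case `k ≥ 2` -/
lemma gt_B_two {X₁ X₂ : Finset α} (hd : Disjoint X₁ X₂) {k l : ℕ} (hk : 2 ≤ k) (hl : 1 ≤ l) (h1 : 2 * k < X₁.card)
    (h2 : 2 * l ≤ X₂.card) :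
    ∃ 𝓕 ⊆ Members X₁ X₂ k l, TwoSided X₁ X₂ 𝓕 ∧ B X₁.card X₂.card k l < 𝓕.card := by
  classical
  obtain ⟨x, hx⟩ : X₁.Nonempty := by rw [← card_pos]; omega
  obtain ⟨K, hK, cK⟩ : ∃ K ⊆ X₁.erase x, K.card = k := exists_subset_card_eq (by
    rw [card_erase_of_mem hx]; omega)
  obtain ⟨L, hL, cL⟩ : ∃ L ⊆ X₂, L.card = l := exists_subset_card_eq (by omega)
  have hKX : K ⊆ X₁ := hK.trans (erase_subset _ _)
  have hxK : x ∉ K := fun h => by simpa using hK h
  set S₁ := ((powersetCard k X₁).filter fun P => x ∈ P) ×ˢ powersetCard l X₂ with hS₁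
  set S₂ := ((powersetCard k X₁).filter fun P => x ∈ P ∧ Disjoint P K) ×ˢ
    ((powersetCard l X₂).filter fun Q => Disjoint Q L) with hS₂
  have h21 : S₂ ⊆ S₁ := by
    apply product_subset_product
    · intro P hP
      rw [mem_filter] at hP ⊢
      exact ⟨hP.1, hP.2.1⟩
    · exact filter_subset _ _
  have hKL : (K, L) ∉ S₁ \ S₂ := fun h => by
    rw [mem_sdiff, hS₁, mem_product, mem_filter] at h
    exact hxK h.1.1.2
  set S := insert (K, L) (S₁ \ S₂) with hSdef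
  have memS : ∀ p : Finset α × Finset α, p ∈ S ↔ p = (K, L) ∨ (p ∈ S₁ ∧ p ∉ S₂) := by
    intro p
    rw [hSdef, mem_insert, mem_sdiff]
  have hS : S ⊆ powersetCard k X₁ ×ˢ powersetCard l X₂ := by
    intro p hp
    rcases (memS p).1 hp with rfl | hp
    · exact mem_product.2 ⟨mem_powersetCard.2 ⟨hKX, cK⟩, mem_powersetCard.2 ⟨hL, cL⟩⟩
    · rw [hS₁, mem_product, mem_filter] at hp
      exact mem_product.2 ⟨hp.1.1.1, hp.1.2⟩
  have mem_of : ∀ P Q, P ∈ powersetCard k X₁ → Q ∈ powersetCard l X₂ → x ∈ P → (¬ Disjoint P K ∨ ¬ Disjoint Q L) →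
      (P, Q) ∈ S := by
    intro P Q hP hQ hxP h
    refine (memS _).2 (Or.inr ⟨mem_product.2 ⟨mem_filter.2 ⟨hP, hxP⟩, hQ⟩, fun h' => ?_⟩)
    rw [hS₂, mem_product, mem_filter, mem_filter] at h'
    rcases h with h | h
    · exact h h'.1.2.2
    · exact h h'.2.2
  have of_mem : ∀ p, p ∈ S₁ → p ∉ S₂ → x ∈ p.1 ∧ (¬ Disjoint p.1 K ∨ ¬ Disjoint p.2 L) := by
    intro p hp hp'
    rw [hS₁, mem_product, mem_filter] at hp
    refine ⟨hp.1.2, ?_⟩
    by_contra hcon
    push Not at hcon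
    exact hp' (mem_product.2 ⟨mem_filter.2 ⟨hp.1.1, hp.1.2, hcon.1⟩, mem_filter.2 ⟨hp.2, hcon.2⟩⟩)
  have neK : ¬ Disjoint K K := fun h => by
    rw [disjoint_self_iff_empty] at h
    rw [h, card_empty] at cK
    omega
  have neL : ¬ Disjoint L L := fun h => by
    rw [disjoint_self_iff_empty] at h
    rw [h, card_empty] at cL
    omega
  refine ⟨fam X₁ X₂ k l S, fam_sub hd k l S, fam_two hd hS ?_ ?_ ?_, ?_⟩
  · intro p hp q hq
    rcases (memS p).1 hp with rfl | hp <;> rcases (memS q).1 hq with rfl | hq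
    · exact Or.inl neK
    · rcases (of_mem q hq.1 hq.2).2 with h | h
      · exact Or.inl fun h' => h h'.symm
      · exact Or.inr fun h' => h h'.symm
    · rcases (of_mem p hp.1 hp.2).2 with h | h
      · exact Or.inl h
      · exact Or.inr h
    · exact Or.inl (not_disjoint_iff.2 ⟨x, (of_mem p hp.1 hp.2).1, (of_mem q hq.1 hq.2).1⟩)
  · obtain ⟨P, hP1, hP2, hP3⟩ := exists_subsuperset_card_eq (s := {x}) (t := X₁ \ K) (n := k)
      (by simp [hx, hxK]) (by simp; omega) (by rw [card_sdiff_of_subset hKX]; omega)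
    refine ⟨(K, L), (memS _).2 (Or.inl rfl), (P, L), mem_of P L (mem_powersetCard.2 ⟨hP2.trans sdiff_subset, hP3⟩)
      (mem_powersetCard.2 ⟨hL, cL⟩) (hP1 (mem_singleton_self _)) (Or.inr neL), ?_⟩
    exact (disjoint_of_subset_left hP2 sdiff_disjoint).symm
  · obtain ⟨y, hy⟩ : K.Nonempty := by rw [← card_pos]; omega
    obtain ⟨P, hP1, hP2, hP3⟩ := exists_subsuperset_card_eq (s := {x, y}) (t := X₁) (n := k)
      (by intro a ha; simp only [mem_insert, mem_singleton] at ha; rcases ha with rfl | rfl; exacts [hx, hKX hy])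
      ((card_le_two).trans hk) (by omega)
    obtain ⟨C, hC, hCL⟩ := exists_disj h2 (mem_powersetCard.2 ⟨hL, cL⟩)
    have hPm : P ∈ powersetCard k X₁ := mem_powersetCard.2 ⟨hP2, hP3⟩
    have hPK : ¬ Disjoint P K := not_disjoint_iff.2 ⟨y, hP1 (by simp), hy⟩
    exact ⟨(P, C), mem_of P C hPm hC (hP1 (by simp)) (Or.inl hPK), (P, L),
      mem_of P L hPm (mem_powersetCard.2 ⟨hL, cL⟩) (hP1 (by simp)) (Or.inl hPK), hCL⟩
  · rw [card_fam hd hS, hSdef, card_insert_of_notMem hKL, card_sdiff_of_subset h21, hS₁, hS₂, card_product,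
      card_product, card_mem hx (by omega), card_mem_disj hKX hx hxK (by omega), card_disj hL l cL, card_powersetCard, cK]
    have e1 : (X₁.card - k - 1).choose (k - 1) * (X₂.card - l).choose l ≤
        (X₁.card - 1).choose (k - 1) * X₂.card.choose l :=
      Nat.mul_le_mul (Nat.choose_le_choose _ (by omega)) (Nat.choose_le_choose _ (by omega))
    have e2 : 2 ≤ (X₁.card - k - 1).choose (k - 1) := by
      calc 2 ≤ k := hk
        _ = k.choose (k - 1) := by
          obtain ⟨j, rfl⟩ : ∃ j, k = j + 1 := ⟨k - 1, by omega⟩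
          simp [Nat.choose_succ_self_right]
        _ ≤ (X₁.card - k - 1).choose (k - 1) := Nat.choose_le_choose _ (by omega)
    have e3 : (X₂.card - l).choose l < X₂.card.choose l := D_lt_N hl (by omega)
    unfold B
    push_cast [Nat.cast_sub e1]
    have e2' : (2 : ℤ) ≤ ((X₁.card - k - 1).choose (k - 1) : ℕ) := by exact_mod_cast e2
    have e3' : (((X₂.card - l).choose l : ℕ) : ℤ) < (X₂.card.choose l : ℕ) := by exact_mod_cast e3
    nlinarith

/-- the case `k = 1`, `l ≥ 2` -/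
lemma gt_B_one {X₁ X₂ : Finset α} (hd : Disjoint X₁ X₂) {l : ℕ} (hl : 2 ≤ l) (h1 : 2 < X₁.card)
    (h2 : 2 * l ≤ X₂.card) :
    ∃ 𝓕 ⊆ Members X₁ X₂ 1 l, TwoSided X₁ X₂ 𝓕 ∧ B X₁.card X₂.card 1 l < 𝓕.card := by
  classical
  obtain ⟨x, hx, x', hx', hxx⟩ : ∃ x ∈ X₁, ∃ x' ∈ X₁, x ≠ x' := one_lt_card.1 (by omega)
  obtain ⟨L, hL, cL⟩ : ∃ L ⊆ X₂, L.card = l := exists_subset_card_eq (by omega)
  obtain ⟨y, hy, z, hz, hyz⟩ : ∃ y ∈ L, ∃ z ∈ L, y ≠ z := one_lt_card.1 (by omega)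
  have neL : ¬ Disjoint L L := not_disjoint_iff.2 ⟨y, hy, hy⟩
  set S₁ := ((powersetCard 1 X₁).filter fun P => x ∈ P) ×ˢ ((powersetCard l X₂).filter fun Q => ¬ Disjoint Q L) with hS₁
  set S₂ := ((powersetCard 1 X₁).filter fun P => x ∉ P) ×ˢ ({L} : Finset (Finset α)) with hS₂
  have hdS : Disjoint S₁ S₂ := by
    rw [disjoint_left]
    intro p hp hp'
    rw [hS₁, mem_product, mem_filter] at hp
    rw [hS₂, mem_product, mem_filter] at hp'
    exact hp'.1.2 hp.1.2
  have hS : S₁ ∪ S₂ ⊆ powersetCard 1 X₁ ×ˢ powersetCard l X₂ := by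
    refine union_subset (product_subset_product (filter_subset _ _) (filter_subset _ _))
      (product_subset_product (filter_subset _ _) ?_)
    rw [singleton_subset_iff, mem_powersetCard]
    exact ⟨hL, cL⟩
  have props : ∀ p ∈ S₁ ∪ S₂, (x ∈ p.1 ∧ ¬ Disjoint p.2 L) ∨ p.2 = L := by
    intro p hp
    rcases mem_union.1 hp with hp | hp
    · rw [hS₁, mem_product, mem_filter, mem_filter] at hp
      exact Or.inl ⟨hp.1.2, hp.2.2⟩
    · rw [hS₂, mem_product, mem_singleton] at hp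
      exact Or.inr hp.2
  have hLm : L ∈ powersetCard l X₂ := mem_powersetCard.2 ⟨hL, cL⟩
  have mem₁ : ∀ Q ∈ powersetCard l X₂, ¬ Disjoint Q L → (({x} : Finset α), Q) ∈ S₁ ∪ S₂ := by
    intro Q hQ h
    refine mem_union_left _ (mem_product.2 ⟨mem_filter.2 ⟨mem_powersetCard.2 ⟨by simpa using hx, rfl⟩, ?_⟩,
      mem_filter.2 ⟨hQ, h⟩⟩)
    exact mem_singleton_self x
  have mem₂ : (({x'} : Finset α), L) ∈ S₁ ∪ S₂ := by
    refine mem_union_right _ (mem_product.2 ⟨mem_filter.2 ⟨mem_powersetCard.2 ⟨by simpa using hx', rfl⟩, ?_⟩,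
      mem_singleton_self L⟩)
    simpa using hxx
  refine ⟨fam X₁ X₂ 1 l (S₁ ∪ S₂), fam_sub hd 1 l _, fam_two hd hS ?_ ?_ ?_, ?_⟩
  · intro p hp q hq
    rcases props p hp with h | h <;> rcases props q hq with h' | h'
    · exact Or.inl (not_disjoint_iff.2 ⟨x, h.1, h'.1⟩)
    · exact Or.inr (by rw [h']; exact h.2)
    · exact Or.inr fun h'' => h'.2 (by rw [← h]; exact h''.symm)
    · exact Or.inr (by rw [h, h']; exact neL)
  · refine ⟨({x}, L), mem₁ L hLm neL, ({x'}, L), mem₂, ?_⟩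
    exact disjoint_singleton.2 hxx
  · obtain ⟨Q, hQ1, hQ2, hQ3⟩ := exists_subsuperset_card_eq (s := {y}) (t := X₂.erase z) (n := l)
      (by rw [singleton_subset_iff, mem_erase]; exact ⟨hyz, hL hy⟩) (by simp; omega)
      (by rw [card_erase_of_mem (hL hz)]; omega)
    have hQX : Q ⊆ X₂ := hQ2.trans (erase_subset _ _)
    have hzQ : z ∉ Q := fun h => by simpa using hQ2 h
    obtain ⟨Q', hQ1', hQ2', hQ3'⟩ := exists_subsuperset_card_eq (s := {z}) (t := X₂ \ Q) (n := l)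
      (by rw [singleton_subset_iff, mem_sdiff]; exact ⟨hL hz, hzQ⟩) (by simp; omega)
      (by rw [card_sdiff_of_subset hQX]; omega)
    exact ⟨({x}, Q), mem₁ Q (mem_powersetCard.2 ⟨hQX, hQ3⟩)
      (not_disjoint_iff.2 ⟨y, hQ1 (mem_singleton_self _), hy⟩), ({x}, Q'),
      mem₁ Q' (mem_powersetCard.2 ⟨hQ2'.trans sdiff_subset, hQ3'⟩)
      (not_disjoint_iff.2 ⟨z, hQ1' (mem_singleton_self _), hz⟩),
      (disjoint_of_subset_left hQ2' sdiff_disjoint).symm⟩
  · have e0 := card_filter_add_card_filter_not (s := powersetCard l X₂) (fun Q => Disjoint Q L)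
    rw [card_disj hL l cL, card_powersetCard] at e0
    rw [card_fam hd hS, card_union_of_disjoint hdS, hS₁, hS₂, card_product, card_product, card_mem hx le_rfl,
      card_notMem hx, card_singleton]
    simp only [Nat.sub_self, Nat.choose_zero_right, Nat.choose_one_right, one_mul, mul_one]
    unfold B
    simp only [Nat.sub_self, Nat.choose_zero_right]
    have e0' : (((X₂.card - l).choose l : ℕ) : ℤ) +
        (((powersetCard l X₂).filter fun Q => ¬ Disjoint Q L).card : ℕ) = (X₂.card.choose l : ℕ) := by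
      exact_mod_cast e0
    have e4 : ((X₁.card - 1 : ℕ) : ℤ) = (X₁.card : ℤ) - 1 := by
      rw [Nat.cast_sub (by omega)]
      rfl
    have e5 : (2 : ℤ) < X₁.card := by exact_mod_cast h1
    push_cast [e4] at e0' ⊢
    linarith

lemma gt_B {X₁ X₂ : Finset α} (hd : Disjoint X₁ X₂) {k l : ℕ} (hk : 1 ≤ k) (hl : 1 ≤ l) (hkl : ¬ (k = 1 ∧ l = 1))
    (h1 : 2 * k < X₁.card) (h2 : 2 * l < X₂.card) :
    ∃ 𝓕 ⊆ Members X₁ X₂ k l, TwoSided X₁ X₂ 𝓕 ∧ B X₁.card X₂.card k l < 𝓕.card := by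
  by_cases hk2 : 2 ≤ k
  · exact gt_B_two hd hk2 hl h1 h2.le
  · obtain rfl : k = 1 := by omega
    exact gt_B_one hd (by omega) (by omega) h2.le

/-- **Two-sided intersecting families.** Let `X₁`, `X₂` be disjoint finite sets and `k, l ≥ 1`. Every two-sided intersecting
family of sets `F ⊆ X₁ ∪ X₂` with `|F ∩ X₁| = k` and `|F ∩ X₂| = l` has at most `max {A, B}` members if and only if
`|X₁| ≤ 2 k` or `|X₂| ≤ 2 l` or `k = l = 1`. In particular the answer to Q1 is negative (for example for `k = 1`, `l = 2`,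
`|X₁| = 3`, `|X₂| = 5` and for `k = l = 2`, `|X₁| = |X₂| = 5`). -/
theorem result (X₁ X₂ : Finset α) (hd : Disjoint X₁ X₂) (k l : ℕ) (hk : 1 ≤ k) (hl : 1 ≤ l) :
    (∀ 𝓕 : Finset (Finset α), 𝓕 ⊆ Members X₁ X₂ k l → TwoSided X₁ X₂ 𝓕 →
      (𝓕.card : ℤ) ≤ max (A X₁.card X₂.card k l) (B X₁.card X₂.card k l)) ↔
    (X₁.card ≤ 2 * k ∨ X₂.card ≤ 2 * l ∨ (k = 1 ∧ l = 1)) := by
  constructor
  · intro h
    by_contra hcon
    push Not at hcon
    obtain ⟨h1, h2, h3⟩ := hcon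
    have hkl : ¬ (k = 1 ∧ l = 1) := fun h => h3 h.1 h.2
    obtain ⟨𝓕, g1, g2, g3⟩ := gt_B hd hk hl hkl h1 h2
    obtain ⟨𝓖, g4, g5, g6⟩ := gt_B hd.symm hl hk (fun h => hkl ⟨h.2, h.1⟩) h2 h1
    have k1 := h 𝓕 g1 g2
    have k2 := h 𝓖 (by rw [Members_comm]; exact g4) g5.comm
    rw [← A_eq_B] at g6
    rcases max_choice (A X₁.card X₂.card k l) (B X₁.card X₂.card k l) with h5 | h5
    · rw [h5] at k2
      linarith
    · rw [h5] at k1
      linarith
  · rintro (h | h | ⟨rfl, rfl⟩) 𝓕 h𝓕 hT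
    · exact (bound_B hk hl h h𝓕 hT).trans (le_max_right _ _)
    · refine le_trans ?_ (le_max_left _ _)
      rw [A_eq_B]
      exact bound_B hl hk h (by rw [Members_comm]; exact h𝓕) hT.comm
    · exact (one_one hd h𝓕 hT).elim

end Pool.Agent.Results.MP_4c0b8d_co.WhenTheBoundHolds
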